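import Pool.Agent.Helper42.QMeas.Main

set_option autoImplicit false

namespace Pool.Agent.Results.MP_8a0948_an.EveryEpsilon

open Pool.Agent.Helper42.QMeas

theorem result (ε : ℝ) (h0 : 0 < ε) (h1 : ε < 1) (hQ : ∃ ν : Set ℕ → ℝ, IsStrongQ 1 ν) :
    ∃ μ : Set ℕ → ℝ, IsStrongQ ε μ ∧ μ Set.univ = 1 ∧
      ∃ (X : Type) (_ : NormedAddCommGroup X) (_ : NormedSpace ℝ X) (_ : CompleteSpace X)
        (x : ℕ → X) (g G : Bidual X) (y : X),
        IsLOrthogonal x ∧ IsMuLim μ x g ∧ IsSum y g G ∧ bnorm G < ‖y‖ + ε * bnorm g :=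
  main2 ε h0 h1 hQ

end Pool.Agent.Results.MP_8a0948_an.EveryEpsilon
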