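import Pool.Agent.Helper42.QMeas.Main

set_option autoImplicit false

namespace Pool.Agent.Results.MP_8a0948_an.NoInequality

open Pool.Agent.Helper42.QMeas

theorem result (κ : ℝ → ℝ) (hκ : ∀ ε, 0 < ε → 0 < κ ε) :
    ¬ Inequality κ ↔ ∃ ε : ℝ, 0 < ε ∧ ∃ ν : Set ℕ → ℝ, IsStrongQ ε ν :=
  main κ hκ

end Pool.Agent.Results.MP_8a0948_an.NoInequality
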